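import Pool.Agent.U638.KO.Back

/-!
# The theories `T_{n,k}` are not pairwise incomparable in Keisler's order

For `n > k ≥ 1` let `T_{n,k}` be the theory of the generic `(k + 1)`-uniform hypergraph without
cliques of `n + 1` points (the model completion of the universal theory of these hypergraphs). We
prove `T_{n,k} ⊴ T_{n',k}` for all `k < n ≤ n'`, so two different theories `T_{n,k}` of the same
uniformity are always comparable.

Idea of the proof. Let `D` be a regular ultrafilter which is good for `T_{n',k}`, let `N` be a model of
`T_{n',k}` such that its ultrapower is saturated, and let `M` be any model of `T_{n,k}`. Let `p` be a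
type over a set `A` in the ultrapower of `M`. By regularity only finitely many elements of `A` are
active at each index `i`; the cone over these finitely many points of `M` with `n' - n` new points
embeds in `N`. This gives a copy of the cone over `A` in the ultrapower of `N`, and the type over the
cone which says `p` and that every set with a new point is an edge is consistent, hence realized, say
by `b`. At the index `i` we keep those formulas of `p` for which `b` behaves well on the cone over their
parameters. The formulas kept at `i` are consistent in `M`: an obstruction, a clique of `n` points,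
together with the `n' - n` new points and `b(i)`, would be a clique of `n' + 1` points in `N`.
-/

set_option autoImplicit false

namespace Pool.Agent.Results.MP_6564ad_lc.Comparable

open Pool.Agent.U638.KO

/-- (1) The theories `T_{n,k}` (`IsT n k`) exist for `n > k ≥ 1`. (2) `T_{n,k} ⊴ T_{n',k}` in Keisler's
order for all `1 ≤ k < n ≤ n'`. (3) So it is not true that `T_{n,k}` and `T_{n',k'}` are incomparable
in Keisler's order for all pairs `(n,k) ≠ (n',k')` with `n > k ≥ 2` and `n' > k' ≥ 2`. -/
theorem result :
    (∀ n k : ℕ, 1 ≤ k → k < n → ∃ T : (L k).Theory, IsT n k T) ∧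
    (∀ n n' k : ℕ, 1 ≤ k → k < n → n ≤ n' → ∀ T T' : (L k).Theory, IsT n k T → IsT n' k T' →
      KeislerLE (L k) (L k) T T') ∧
    ¬ ∀ n k n' k' : ℕ, 2 ≤ k → k < n → 2 ≤ k' → k' < n' → (n, k) ≠ (n', k') →
      ∀ (T : (L k).Theory) (T' : (L k').Theory), IsT n k T → IsT n' k' T' →
        ¬ KeislerLE (L k) (L k') T T' ∧ ¬ KeislerLE (L k') (L k) T' T := by
  have h2 : ∀ n n' k : ℕ, 1 ≤ k → k < n → n ≤ n' → ∀ T T' : (L k).Theory, IsT n k T →
      IsT n' k T' → KeislerLE (L k) (L k) T T' := by
    intro n n' k hk hkn hnn T T' hT hT'
    obtain ⟨d, rfl⟩ := Nat.exists_eq_add_of_le hnn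
    exact main hk hkn hT hT'
  refine ⟨fun n k hk hkn => ⟨Tgen n k, isT_gen hk hkn⟩, h2, fun h => ?_⟩
  have h3 := h 3 2 4 2 (by norm_num) (by norm_num) (by norm_num) (by norm_num) (by simp)
    (Tgen 3 2) (Tgen 4 2) (isT_gen (by norm_num) (by norm_num)) (isT_gen (by norm_num) (by norm_num))
  exact h3.1 (h2 3 4 2 (by norm_num) (by norm_num) (by norm_num) _ _
    (isT_gen (by norm_num) (by norm_num)) (isT_gen (by norm_num) (by norm_num)))

end Pool.Agent.Results.MP_6564ad_lc.Comparable
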